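import Pool.Agent.E8helper49.Corner.Young

/-!
Counting corners.
-/

set_option autoImplicit false

namespace Pool.Agent.E8helper49.Corner

open Finset Pool.Agent.H523R2.Corner

/-- the corners of `A`, the trivial ones included -/
def cor {G : Type*} [AddCommGroup G] [Fintype G] [DecidableEq G] (A : Finset (G × G)) :
    Finset (G × G × G) :=
  univ.filter fun t => (t.1, t.2.1) ∈ A ∧ (t.1, t.2.1 + t.2.2) ∈ A ∧ (t.1 + t.2.2, t.2.1) ∈ A

lemma card_le_cor {G : Type*} [AddCommGroup G] [Fintype G] [DecidableEq G] (A : Finset (G × G)) :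
    A.card ≤ (cor A).card := by
  apply card_le_card_of_injOn (fun p => (p.1, p.2, 0))
  · intro p hp
    simp only [cor, coe_filter, mem_univ, true_and, Set.mem_ofPred_eq, add_zero]
    exact ⟨hp, hp, hp⟩
  · rintro ⟨a, b⟩ _ ⟨a', b'⟩ _ h
    simp only [Prod.mk.injEq] at h
    simp [h.1, h.2.1]

lemma cor_of_cf {G : Type*} [AddCommGroup G] [Fintype G] [DecidableEq G] {A : Finset (G × G)}
    (hA : CF A) : (cor A).card = A.card := by
  refine le_antisymm ?_ (card_le_cor A)
  apply card_le_card_of_injOn (fun t => (t.1, t.2.1))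
  · intro t ht
    simp only [cor, coe_filter, mem_univ, true_and, Set.mem_ofPred_eq] at ht
    exact ht.1
  · rintro ⟨x, y, z⟩ ht ⟨x', y', z'⟩ ht' h
    simp only [cor, coe_filter, mem_univ, true_and, Set.mem_ofPred_eq] at ht ht'
    simp only [Prod.mk.injEq] at h
    obtain ⟨rfl, rfl⟩ := h
    rw [hA _ _ _ ht.1 ht.2.1 ht.2.2, hA _ _ _ ht'.1 ht'.2.1 ht'.2.2]

lemma cor_powSet {G : Type*} [AddCommGroup G] [Fintype G] [DecidableEq G] (A : Finset (G × G))
    (M : ℕ) : (cor (powSet A M)).card ≤ (cor A).card ^ M := by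
  have h : (Fintype.piFinset fun _ : Fin M => cor A).card = (cor A).card ^ M := by
    rw [Fintype.card_piFinset, prod_const, card_univ, Fintype.card_fin]
  rw [← h]
  apply card_le_card_of_injOn (fun t i => (t.1 i, t.2.1 i, t.2.2 i))
  · intro t ht
    simp only [cor, coe_filter, mem_univ, true_and, Set.mem_ofPred_eq, mem_powSet] at ht
    rw [Finset.mem_coe, Fintype.mem_piFinset]
    intro i
    simp only [cor, mem_filter, mem_univ, true_and]
    exact ⟨ht.1 i, ht.2.1 i, ht.2.2 i⟩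
  · rintro ⟨x, y, z⟩ _ ⟨x', y', z'⟩ _ h
    have h' := fun i => congrFun h i
    simp only [Prod.mk.injEq] at h'
    simp only [Prod.mk.injEq]
    exact ⟨funext fun i => (h' i).1, funext fun i => (h' i).2.1, funext fun i => (h' i).2.2⟩

/-- Young's inequality with exponents `3/2` on a finite group -/
lemma young32 {F : Type*} [AddCommGroup F] [Fintype F] (u v w : F → ℝ) (hu : ∀ a, 0 ≤ u a)
    (hv : ∀ a, 0 ≤ v a) (hw : ∀ a, 0 ≤ w a) :
    ∑ a, ∑ b, u a * v b * w (a + b) ≤
      (∑ a, u a ^ (3 / 2 : ℝ)) ^ (2 / 3 : ℝ) * (∑ a, v a ^ (3 / 2 : ℝ)) ^ (2 / 3 : ℝ) *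
        (∑ a, w a ^ (3 / 2 : ℝ)) ^ (2 / 3 : ℝ) := by
  set U := ∑ a, u a ^ (3 / 2 : ℝ) with hU
  set V := ∑ a, v a ^ (3 / 2 : ℝ) with hV
  set W := ∑ a, w a ^ (3 / 2 : ℝ) with hW
  have zero_of : ∀ f : F → ℝ, (∀ a, 0 ≤ f a) → ∑ a, f a ^ (3 / 2 : ℝ) = 0 → ∀ a, f a = 0 := by
    intro f hf h0 a
    have := (sum_eq_zero_iff_of_nonneg (fun b _ => Real.rpow_nonneg (hf b) _)).1 h0 a (mem_univ a)
    rwa [Real.rpow_eq_zero (hf a) (by norm_num)] at this
  have U0 : 0 ≤ U := sum_nonneg fun a _ => Real.rpow_nonneg (hu a) _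
  have V0 : 0 ≤ V := sum_nonneg fun a _ => Real.rpow_nonneg (hv a) _
  have W0 : 0 ≤ W := sum_nonneg fun a _ => Real.rpow_nonneg (hw a) _
  rcases eq_or_lt_of_le U0 with h0 | hUp
  · have := zero_of u hu h0.symm
    simp only [this, zero_mul, sum_const_zero]
    positivity
  rcases eq_or_lt_of_le V0 with h0 | hVp
  · have := zero_of v hv h0.symm
    simp only [this, mul_zero, zero_mul, sum_const_zero]
    positivity
  rcases eq_or_lt_of_le W0 with h0 | hWp
  · have := zero_of w hw h0.symm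
    simp only [this, mul_zero, sum_const_zero]
    positivity
  have key : ∀ a b : F, u a * v b * w (a + b) ≤
      (U ^ (2 / 3 : ℝ) * V ^ (2 / 3 : ℝ) * W ^ (2 / 3 : ℝ)) *
      (1 / 3 * ((u a ^ (3 / 2 : ℝ) / U) * (v b ^ (3 / 2 : ℝ) / V)) +
       1 / 3 * ((v b ^ (3 / 2 : ℝ) / V) * (w (a + b) ^ (3 / 2 : ℝ) / W)) +
       1 / 3 * ((u a ^ (3 / 2 : ℝ) / U) * (w (a + b) ^ (3 / 2 : ℝ) / W))) := by
    intro a b
    set x := u a ^ (3 / 2 : ℝ) / U with hx
    set y := v b ^ (3 / 2 : ℝ) / V with hy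
    set z := w (a + b) ^ (3 / 2 : ℝ) / W with hz
    have x0 : 0 ≤ x := div_nonneg (Real.rpow_nonneg (hu a) _) U0
    have y0 : 0 ≤ y := div_nonneg (Real.rpow_nonneg (hv b) _) V0
    have z0 : 0 ≤ z := div_nonneg (Real.rpow_nonneg (hw _) _) W0
    have am := Real.geom_mean_le_arith_mean3_weighted (w₁ := 1 / 3) (w₂ := 1 / 3) (w₃ := 1 / 3)
      (p₁ := x * y) (p₂ := y * z) (p₃ := x * z) (by norm_num) (by norm_num) (by norm_num)
      (by positivity) (by positivity) (by positivity) (by norm_num)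
    have eq1 : u a = U ^ (2 / 3 : ℝ) * x ^ (2 / 3 : ℝ) := by
      rw [← Real.mul_rpow U0 x0, hx, mul_div_cancel₀ _ hUp.ne', ← Real.rpow_mul (hu a)]
      norm_num
    have eq2 : v b = V ^ (2 / 3 : ℝ) * y ^ (2 / 3 : ℝ) := by
      rw [← Real.mul_rpow V0 y0, hy, mul_div_cancel₀ _ hVp.ne', ← Real.rpow_mul (hv b)]
      norm_num
    have eq3 : w (a + b) = W ^ (2 / 3 : ℝ) * z ^ (2 / 3 : ℝ) := by
      rw [← Real.mul_rpow W0 z0, hz, mul_div_cancel₀ _ hWp.ne', ← Real.rpow_mul (hw _)]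
      norm_num
    have eq4 : x ^ (2 / 3 : ℝ) * y ^ (2 / 3 : ℝ) * z ^ (2 / 3 : ℝ) =
        (x * y) ^ (1 / 3 : ℝ) * (y * z) ^ (1 / 3 : ℝ) * (x * z) ^ (1 / 3 : ℝ) := by
      rw [Real.mul_rpow x0 y0, Real.mul_rpow y0 z0, Real.mul_rpow x0 z0]
      have e : ∀ t : ℝ, 0 ≤ t → t ^ (2 / 3 : ℝ) = t ^ (1 / 3 : ℝ) * t ^ (1 / 3 : ℝ) := by
        intro t ht
        rw [← Real.rpow_add_of_nonneg ht (by norm_num) (by norm_num)]
        norm_num
      rw [e x x0, e y y0, e z z0]
      ring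
    calc u a * v b * w (a + b) = (U ^ (2 / 3 : ℝ) * V ^ (2 / 3 : ℝ) * W ^ (2 / 3 : ℝ)) *
          (x ^ (2 / 3 : ℝ) * y ^ (2 / 3 : ℝ) * z ^ (2 / 3 : ℝ)) := by
          rw [eq1, eq2, eq3]; ring
      _ ≤ _ := by
          rw [eq4]
          exact mul_le_mul_of_nonneg_left am (by positivity)
  calc ∑ a, ∑ b, u a * v b * w (a + b) ≤ ∑ a, ∑ b,
      (U ^ (2 / 3 : ℝ) * V ^ (2 / 3 : ℝ) * W ^ (2 / 3 : ℝ)) *
      (1 / 3 * ((u a ^ (3 / 2 : ℝ) / U) * (v b ^ (3 / 2 : ℝ) / V)) +
       1 / 3 * ((v b ^ (3 / 2 : ℝ) / V) * (w (a + b) ^ (3 / 2 : ℝ) / W)) +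
       1 / 3 * ((u a ^ (3 / 2 : ℝ) / U) * (w (a + b) ^ (3 / 2 : ℝ) / W))) :=
        sum_le_sum fun a _ => sum_le_sum fun b _ => key a b
    _ = U ^ (2 / 3 : ℝ) * V ^ (2 / 3 : ℝ) * W ^ (2 / 3 : ℝ) := by
        have sx : ∑ a, u a ^ (3 / 2 : ℝ) / U = 1 := by
          rw [← sum_div, ← hU, div_self hUp.ne']
        have sy : ∑ a, v a ^ (3 / 2 : ℝ) / V = 1 := by
          rw [← sum_div, ← hV, div_self hVp.ne']
        have sz : ∑ a, w a ^ (3 / 2 : ℝ) / W = 1 := by
          rw [← sum_div, ← hW, div_self hWp.ne']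
        have t1 : ∑ a, ∑ b, (u a ^ (3 / 2 : ℝ) / U) * (v b ^ (3 / 2 : ℝ) / V) = 1 := by
          simp_rw [← mul_sum, sy, mul_one, sx]
        have t2 : ∑ a, ∑ b, (v b ^ (3 / 2 : ℝ) / V) * (w (a + b) ^ (3 / 2 : ℝ) / W) = 1 := by
          rw [sum_comm]
          have : ∀ b, ∑ a, (v b ^ (3 / 2 : ℝ) / V) * (w (a + b) ^ (3 / 2 : ℝ) / W) =
              (v b ^ (3 / 2 : ℝ) / V) := by
            intro b
            have hsc := Equiv.sum_comp (Equiv.addRight b) (fun a => w a ^ (3 / 2 : ℝ) / W)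
            simp only [Equiv.coe_addRight] at hsc
            rw [← mul_sum, hsc, sz, mul_one]
          simp_rw [this, sy]
        have t3 : ∑ a, ∑ b, (u a ^ (3 / 2 : ℝ) / U) * (w (a + b) ^ (3 / 2 : ℝ) / W) = 1 := by
          have : ∀ a, ∑ b, (u a ^ (3 / 2 : ℝ) / U) * (w (a + b) ^ (3 / 2 : ℝ) / W) =
              (u a ^ (3 / 2 : ℝ) / U) := by
            intro a
            have hsc := Equiv.sum_comp (Equiv.addLeft a) (fun a => w a ^ (3 / 2 : ℝ) / W)
            simp only [Equiv.coe_addLeft] at hsc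
            rw [← mul_sum, hsc, sz, mul_one]
          simp_rw [this, sx]
        simp_rw [← mul_sum, sum_add_distrib, ← mul_sum] at *
        rw [t1, t2, t3]
        ring

/-- concavity -/
lemma sum_rpow_le {F : Type*} [Fintype F] [Nonempty F] {c : ℝ} (hc0 : 0 ≤ c) (hc1 : c < 1)
    (x : F → ℝ) (hx : ∀ a, 0 ≤ x a) :
    ∑ a, x a ^ (1 - c) ≤ (Fintype.card F : ℝ) ^ c * (∑ a, x a) ^ (1 - c) := by
  have hN : (0 : ℝ) < Fintype.card F := by exact_mod_cast Fintype.card_pos
  set S := ∑ a, x a with hS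
  have S0 : 0 ≤ S := sum_nonneg fun a _ => hx a
  rcases eq_or_lt_of_le S0 with h0 | hSp
  · have : ∀ a, x a = 0 := fun a =>
      (sum_eq_zero_iff_of_nonneg (fun b _ => hx b)).1 (hS ▸ h0.symm) a (mem_univ a)
    simp only [this]
    rw [← h0, Real.zero_rpow (by linarith)]
    simp
  set m := S / Fintype.card F with hm
  have m0 : 0 < m := div_pos hSp hN
  have h1 : ∀ a, x a ^ (1 - c) * m ^ c ≤ (1 - c) * x a + c * m := fun a =>
    Real.geom_mean_le_arith_mean2_weighted (by linarith) hc0 (hx a) m0.le (by ring)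
  have h2 : (∑ a, x a ^ (1 - c)) * m ^ c ≤ S := by
    rw [sum_mul]
    calc _ ≤ ∑ a, ((1 - c) * x a + c * m) := sum_le_sum fun a _ => h1 a
      _ = S := by
        rw [sum_add_distrib, ← mul_sum, sum_const, card_univ, nsmul_eq_mul, ← hS, hm]
        field_simp
        ring
  have h3 : ∑ a, x a ^ (1 - c) ≤ S / m ^ c := (le_div_iff₀ (by positivity)).2 h2
  refine h3.trans (le_of_eq ?_)
  rw [hm, Real.div_rpow S0 hN.le, div_div_eq_mul_div, div_eq_iff (by positivity)]
  have : S = S ^ (1 - c) * S ^ c := by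
    rw [← Real.rpow_add hSp]; norm_num
  conv_lhs => rw [this]
  ring

/-- counting corners, with constants -/
lemma count_step {c C : ℝ} (hc0 : 0 ≤ c) (hc : c < 1) (h : Bound c C)
    {G : Type*} [AddCommGroup G] [Module (ZMod 2) G] [Fintype G] [DecidableEq G]
    (B : Finset (G × G)) (X Y Z : Finset G) (hB : ∀ p ∈ B, p.1 ∈ X ∧ p.2 ∈ Y ∧ p.1 + p.2 ∈ Z)
    (hne : B.Nonempty) :
    (B.card : ℝ) ≤ 2 * (4 * ((cor B).card / B.card : ℝ)) ^ (2 * c) *
      ((X.card : ℝ) * Y.card * Z.card) ^ (2 * (1 - c) / 3) := by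
  classical
  have hb : 0 < B.card := hne.card_pos
  have hbT : B.card ≤ (cor B).card := card_le_cor B
  set T := (cor B).card with hT
  -- choice of `ℓ`
  obtain ⟨l, hl1, hl2⟩ : ∃ l : ℕ, 2 * T ≤ 2 ^ l * B.card ∧ 2 ^ l * B.card ≤ 4 * T := by
    have hex : ∃ l : ℕ, 2 * T ≤ 2 ^ l * B.card := by
      refine ⟨2 * T, ?_⟩
      calc 2 * T ≤ 2 ^ (2 * T) := Nat.lt_two_pow_self.le
        _ ≤ _ := Nat.le_mul_of_pos_right _ hb
    refine ⟨Nat.find hex, Nat.find_spec hex, ?_⟩
    rcases Nat.eq_zero_or_pos (Nat.find hex) with h0 | h0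
    · rw [h0, pow_zero, one_mul]; omega
    · have h1 := Nat.find_min hex (Nat.sub_lt h0 one_pos)
      push Not at h1
      have h2 : 2 ^ (Nat.find hex) = 2 * 2 ^ (Nat.find hex - 1) := by
        conv_lhs => rw [← Nat.sub_add_cancel h0]
        rw [pow_succ]; ring
      rw [h2, mul_assoc]
      omega
  -- choice of the linear map
  set NC := (cor B).filter (fun t => t.2.2 ≠ 0) with hNC
  set N := Fintype.card (Fin l → Module.Dual (ZMod 2) G) with hN
  obtain ⟨L, hL⟩ : ∃ L : Fin l → Module.Dual (ZMod 2) G,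
      2 ^ l * (NC.filter (fun t => phi L t.2.2 = phi L 0)).card ≤ T := by
    by_contra hcon
    push Not at hcon
    have h2 : ∑ _L : Fin l → Module.Dual (ZMod 2) G, (T + 1) ≤
        ∑ L : Fin l → Module.Dual (ZMod 2) G,
          2 ^ l * (NC.filter (fun t => phi L t.2.2 = phi L 0)).card :=
      sum_le_sum fun L _ => hcon L
    rw [sum_const, card_univ, smul_eq_mul, ← mul_sum] at h2
    have h3 : 2 ^ l * ∑ L : Fin l → Module.Dual (ZMod 2) G,
        (NC.filter (fun t => phi L t.2.2 = phi L 0)).card = NC.card * N := by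
      simp_rw [card_filter]
      rw [sum_comm, mul_sum]
      rw [sum_congr rfl (fun t ht => by
        rw [← card_filter, card_collide l t.2.2 0 (mem_filter.1 ht).2] : ∀ t ∈ NC,
        2 ^ l * ∑ L : Fin l → Module.Dual (ZMod 2) G, (if phi L t.2.2 = phi L 0 then 1 else 0) = N)]
      rw [sum_const, smul_eq_mul]
    rw [h3] at h2
    have h4 : NC.card ≤ T := card_filter_le _ _
    have h5 : 0 < N := Fintype.card_pos
    nlinarith
  set del := (NC.filter (fun t => phi L t.2.2 = phi L 0)).image (fun t => (t.1, t.2.1)) with hdel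
  have hdelc : 2 * del.card ≤ B.card := by
    have h1 : del.card ≤ (NC.filter (fun t => phi L t.2.2 = phi L 0)).card := card_image_le
    have h2 : 2 ^ l * (2 * del.card) ≤ 2 ^ l * B.card := by
      calc 2 ^ l * (2 * del.card) = 2 * (2 ^ l * del.card) := by ring
        _ ≤ 2 * (2 ^ l * (NC.filter (fun t => phi L t.2.2 = phi L 0)).card) :=
          Nat.mul_le_mul_left _ (Nat.mul_le_mul_left _ h1)
        _ ≤ 2 * T := Nat.mul_le_mul_left _ hL
        _ ≤ _ := hl1
    exact Nat.le_of_mul_le_mul_left h2 (by positivity)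
  set B' := B \ del with hB'
  have hB'c : B.card ≤ 2 * B'.card := by
    have h1 : B.card ≤ B'.card + del.card := by
      have := card_le_card_sdiff_add_card (s := B) (t := del)
      omega
    omega
  -- decomposition
  set F := Fin l → ZMod 2
  set u : F → Finset G := fun a => X.filter fun x => phi L x = a with hu
  set v : F → Finset G := fun a => Y.filter fun x => phi L x = a with hv
  set w : F → Finset G := fun a => Z.filter fun x => phi L x = a with hw
  set s := 2 * (1 - c) / 3 with hs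
  have piece : ∀ a b : F, ((B'.filter fun p => phi L p.1 = a ∧ phi L p.2 = b).card : ℝ) ≤
      (((u a).card : ℝ) ^ s * ((v b).card : ℝ) ^ s * ((w (a + b)).card : ℝ) ^ s) := by
    intro a b
    have hcf : CF (B'.filter fun p => phi L p.1 = a ∧ phi L p.2 = b) := by
      intro x y z h1 h2 h3
      by_contra hz
      rw [mem_filter, hB', mem_sdiff] at h1 h2 h3
      apply h1.1.2
      rw [hdel, mem_image]
      refine ⟨(x, y, z), mem_filter.2 ⟨mem_filter.2 ⟨?_, hz⟩, ?_⟩, rfl⟩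
      · simp only [cor, mem_filter, mem_univ, true_and]
        exact ⟨h1.1.1, h2.1.1, h3.1.1⟩
      · have e1 := h1.2.1
        have e3 := h3.2.1
        simp only at e1 e3 ⊢
        rw [phi_add, e1] at e3
        have e4 : phi L z = 0 := by
          have : a + phi L z = a + 0 := by rw [e3, add_zero]
          exact add_left_cancel this
        rw [e4]
        funext i
        simp [phi]
    have h1 := rel hc h _ hcf (u a) (v b) (w (a + b))
    have h2 : box (B'.filter fun p => phi L p.1 = a ∧ phi L p.2 = b) (u a) (v b) (w (a + b)) =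
        (B'.filter fun p => phi L p.1 = a ∧ phi L p.2 = b) := by
      unfold box
      rw [filter_eq_self]
      intro p hp
      rw [mem_filter, hB', mem_sdiff] at hp
      obtain ⟨⟨hp1, _⟩, hp2, hp3⟩ := hp
      obtain ⟨q1, q2, q3⟩ := hB p hp1
      refine ⟨mem_filter.2 ⟨q1, hp2⟩, mem_filter.2 ⟨q2, hp3⟩, mem_filter.2 ⟨q3, ?_⟩⟩
      rw [phi_add, hp2, hp3]
    rw [h2] at h1
    rwa [Real.mul_rpow (by positivity) (by positivity),
      Real.mul_rpow (by positivity) (by positivity)] at h1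
  have hsum : (B'.card : ℝ) = ∑ a : F, ∑ b : F,
      ((B'.filter fun p => phi L p.1 = a ∧ phi L p.2 = b).card : ℝ) := by
    have h1 : B'.card = ∑ k : F × F, (B'.filter fun p => (phi L p.1, phi L p.2) = k).card :=
      card_eq_sum_card_fiberwise fun p _ => mem_coe.2 (mem_univ _)
    rw [h1, ← univ_product_univ, sum_product]
    push_cast
    apply sum_congr rfl
    intro a _
    apply sum_congr rfl
    intro b _
    congr 2
    ext p
    simp [Prod.mk.injEq]
  have hpow : ∀ (W : Finset G) (f : F → Finset G) (_ : f = fun a => W.filter fun x => phi L x = a),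
      (∑ a, (((f a).card : ℝ) ^ s) ^ (3 / 2 : ℝ)) ^ (2 / 3 : ℝ) ≤
        (((2 : ℝ) ^ l) ^ c * (W.card : ℝ) ^ (1 - c)) ^ (2 / 3 : ℝ) := by
    intro W f hf
    apply Real.rpow_le_rpow (sum_nonneg fun a _ => by positivity) _ (by norm_num)
    have h1 : ∀ a, (((f a).card : ℝ) ^ s) ^ (3 / 2 : ℝ) = ((f a).card : ℝ) ^ (1 - c) := by
      intro a
      rw [← Real.rpow_mul (by positivity), hs]
      congr 1; ring
    simp_rw [h1]
    refine (sum_rpow_le hc0 hc (fun a => ((f a).card : ℝ)) (fun a => by positivity)).trans ?_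
    have h2 : ∑ a, ((f a).card : ℝ) = W.card := by
      have : W.card = ∑ k : F, (W.filter fun p => phi L p = k).card :=
        card_eq_sum_card_fiberwise fun p _ => mem_coe.2 (mem_univ _)
      rw [this, hf]
      push_cast
      rfl
    have h3 : (Fintype.card F : ℝ) = (2 : ℝ) ^ l := by
      rw [show Fintype.card F = 2 ^ l by rw [Fintype.card_fun, Fintype.card_fin, ZMod.card]]
      push_cast; rfl
    rw [h2, h3]
  have hyoung := young32 (F := F) (fun a => ((u a).card : ℝ) ^ s) (fun a => ((v a).card : ℝ) ^ s)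
    (fun a => ((w a).card : ℝ) ^ s) (fun a => by positivity) (fun a => by positivity)
    (fun a => by positivity)
  have htot : (B'.card : ℝ) ≤ ((2 : ℝ) ^ l) ^ (2 * c) * ((X.card : ℝ) * Y.card * Z.card) ^ s := by
    calc (B'.card : ℝ) = _ := hsum
      _ ≤ ∑ a : F, ∑ b : F, ((u a).card : ℝ) ^ s * ((v b).card : ℝ) ^ s *
          ((w (a + b)).card : ℝ) ^ s := sum_le_sum fun a _ => sum_le_sum fun b _ => piece a b
      _ ≤ _ := hyoung
      _ ≤ (((2 : ℝ) ^ l) ^ c * (X.card : ℝ) ^ (1 - c)) ^ (2 / 3 : ℝ) *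
          (((2 : ℝ) ^ l) ^ c * (Y.card : ℝ) ^ (1 - c)) ^ (2 / 3 : ℝ) *
          (((2 : ℝ) ^ l) ^ c * (Z.card : ℝ) ^ (1 - c)) ^ (2 / 3 : ℝ) := by
          have i1 := hpow X u hu
          have i2 := hpow Y v hv
          have i3 := hpow Z w hw
          have m1 : 0 ≤ (∑ a, (((u a).card : ℝ) ^ s) ^ (3 / 2 : ℝ)) ^ (2 / 3 : ℝ) :=
            Real.rpow_nonneg (sum_nonneg fun a _ => Real.rpow_nonneg
              (Real.rpow_nonneg (Nat.cast_nonneg _) _) _) _
          have m2 : 0 ≤ (∑ a, (((v a).card : ℝ) ^ s) ^ (3 / 2 : ℝ)) ^ (2 / 3 : ℝ) :=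
            Real.rpow_nonneg (sum_nonneg fun a _ => Real.rpow_nonneg
              (Real.rpow_nonneg (Nat.cast_nonneg _) _) _) _
          have m3 : 0 ≤ (∑ a, (((w a).card : ℝ) ^ s) ^ (3 / 2 : ℝ)) ^ (2 / 3 : ℝ) :=
            Real.rpow_nonneg (sum_nonneg fun a _ => Real.rpow_nonneg
              (Real.rpow_nonneg (Nat.cast_nonneg _) _) _) _
          exact mul_le_mul (mul_le_mul i1 i2 m2 (m1.trans i1)) i3 m3
            (mul_nonneg (m1.trans i1) (m2.trans i2))
      _ = _ := by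
          have e1 : ∀ t : ℝ, 0 ≤ t → (((2 : ℝ) ^ l) ^ c * t ^ (1 - c)) ^ (2 / 3 : ℝ) =
              (((2 : ℝ) ^ l) ^ (2 * c / 3)) * t ^ s := by
            intro t ht
            rw [Real.mul_rpow (by positivity) (by positivity), ← Real.rpow_mul (by positivity),
              ← Real.rpow_mul ht, hs]
            congr 2 <;> ring
          rw [e1 _ (by positivity), e1 _ (by positivity), e1 _ (by positivity),
            Real.mul_rpow (by positivity) (by positivity),
            Real.mul_rpow (by positivity) (by positivity)]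
          have e2 : ((2 : ℝ) ^ l) ^ (2 * c) = ((2 : ℝ) ^ l) ^ (2 * c / 3) *
              ((2 : ℝ) ^ l) ^ (2 * c / 3) * ((2 : ℝ) ^ l) ^ (2 * c / 3) := by
            rw [← Real.rpow_add (by positivity), ← Real.rpow_add (by positivity)]
            congr 1; ring
          rw [e2]; ring
  have hb' : (0 : ℝ) < B.card := by exact_mod_cast hb
  have hl3 : ((2 : ℝ) ^ l) ≤ 4 * ((T : ℝ) / B.card) := by
    rw [mul_div_assoc', le_div_iff₀ hb']
    exact_mod_cast hl2
  calc (B.card : ℝ) ≤ 2 * B'.card := by exact_mod_cast hB'c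
    _ ≤ 2 * (((2 : ℝ) ^ l) ^ (2 * c) * ((X.card : ℝ) * Y.card * Z.card) ^ s) := by linarith
    _ ≤ 2 * ((4 * ((T : ℝ) / B.card)) ^ (2 * c) * ((X.card : ℝ) * Y.card * Z.card) ^ s) := by
        have := Real.rpow_le_rpow (by positivity) hl3 (by linarith : 0 ≤ 2 * c)
        gcongr
    _ = _ := by ring

/-- **Counting corners.** -/
theorem count {c C : ℝ} (hc0 : 0 ≤ c) (hc : c < 1) (h : Bound c C)
    {G : Type*} [AddCommGroup G] [Module (ZMod 2) G] [Fintype G] [DecidableEq G]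
    (B : Finset (G × G)) (X Y Z : Finset G) (hB : ∀ p ∈ B, p.1 ∈ X ∧ p.2 ∈ Y ∧ p.1 + p.2 ∈ Z) :
    (B.card : ℝ) ^ (1 + 2 * c) ≤ ((cor B).card : ℝ) ^ (2 * c) *
      ((X.card : ℝ) * Y.card * Z.card) ^ (2 * (1 - c) / 3) := by
  classical
  rcases B.eq_empty_or_nonempty with h0 | hne
  · rw [h0, card_empty, Nat.cast_zero, Real.zero_rpow (by linarith)]
    positivity
  have hb' : (0 : ℝ) < B.card := by exact_mod_cast hne.card_pos
  have key : ∀ M : ℕ, (B.card : ℝ) ^ M ≤ (2 * 4 ^ (2 * c)) * ((M : ℝ) + 1) ^ 0 *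
      (((cor B).card / B.card : ℝ) ^ (2 * c) *
        ((X.card : ℝ) * Y.card * Z.card) ^ (2 * (1 - c) / 3)) ^ M := by
    intro M
    have hne' : (powSet B M).Nonempty := by
      rw [← card_pos, card_powSet]
      exact pow_pos hne.card_pos _
    have h1 := count_step (G := Fin M → G) hc0 hc h (powSet B M)
      (Fintype.piFinset fun _ => X) (Fintype.piFinset fun _ => Y) (Fintype.piFinset fun _ => Z)
      (by
        intro p hp
        rw [mem_powSet] at hp
        refine ⟨Fintype.mem_piFinset.2 fun i => (hB _ (hp i)).1,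
          Fintype.mem_piFinset.2 fun i => (hB _ (hp i)).2.1,
          Fintype.mem_piFinset.2 fun i => (hB _ (hp i)).2.2⟩) hne'
    have cpi : ∀ W : Finset G, ((Fintype.piFinset fun _ : Fin M => W).card : ℝ) =
        (W.card : ℝ) ^ M := by
      intro W
      rw [Fintype.card_piFinset, prod_const, card_univ, Fintype.card_fin]
      push_cast; rfl
    rw [cpi, cpi, cpi, card_powSet] at h1
    have h2 : ((cor (powSet B M)).card : ℝ) ≤ ((cor B).card : ℝ) ^ M := by
      exact_mod_cast cor_powSet B M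
    have ep : ∀ (a q : ℝ), 0 ≤ a → (a ^ M) ^ q = (a ^ q) ^ M := by
      intro a q ha
      rw [← Real.rpow_natCast a M, ← Real.rpow_mul ha, mul_comm (M : ℝ) q, Real.rpow_mul ha,
        Real.rpow_natCast]
    push_cast at h1
    calc (B.card : ℝ) ^ M ≤ _ := h1
      _ ≤ 2 * (4 * (((cor B).card : ℝ) ^ M / (B.card : ℝ) ^ M)) ^ (2 * c) *
          ((X.card : ℝ) ^ M * (Y.card : ℝ) ^ M * (Z.card : ℝ) ^ M) ^ (2 * (1 - c) / 3) := by
          have : (4 * (((cor (powSet B M)).card : ℝ) / (B.card : ℝ) ^ M)) ^ (2 * c) ≤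
              (4 * (((cor B).card : ℝ) ^ M / (B.card : ℝ) ^ M)) ^ (2 * c) := by
            apply Real.rpow_le_rpow (by positivity) _ (by linarith)
            gcongr
          gcongr
      _ = _ := by
          rw [← div_pow, ← mul_pow, ← mul_pow, Real.mul_rpow (by norm_num) (by positivity),
            ep _ _ (by positivity), ep _ _ (by positivity)]
          ring
  have h3 := tensor_trick (by positivity) key
  calc (B.card : ℝ) ^ (1 + 2 * c) = (B.card : ℝ) * (B.card : ℝ) ^ (2 * c) := by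
        rw [Real.rpow_add hb', Real.rpow_one]
    _ ≤ (((cor B).card / B.card : ℝ) ^ (2 * c) *
        ((X.card : ℝ) * Y.card * Z.card) ^ (2 * (1 - c) / 3)) * (B.card : ℝ) ^ (2 * c) :=
        mul_le_mul_of_nonneg_right h3 (by positivity)
    _ = _ := by
        rw [Real.div_rpow (by positivity) hb'.le]
        field_simp

end Pool.Agent.E8helper49.Corner
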