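import Pool.Agent.E8helper49.Corner.Young

/-!
Corner-free sets: entropy inequality.
-/

set_option autoImplicit false

namespace Pool.Agent.E8helper49.Corner

open Finset

/-- Shannon entropy (natural logarithm) -/
noncomputable def ent {ι : Type*} [Fintype ι] (p : ι → ℝ) : ℝ := ∑ i, Real.negMulLog (p i)

/-- image distribution -/
noncomputable def marg {ι κ : Type*} [Fintype ι] [DecidableEq κ] (π : ι → κ) (P : ι → ℝ) (k : κ) :
    ℝ := ∑ i with π i = k, P i

lemma marg_nonneg {ι κ : Type*} [Fintype ι] [DecidableEq κ] (π : ι → κ) (P : ι → ℝ)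
    (hP : ∀ i, 0 ≤ P i) (k : κ) : 0 ≤ marg π P k := sum_nonneg fun i _ => hP i

lemma sum_marg_mul {ι κ : Type*} [Fintype ι] [Fintype κ] [DecidableEq κ] (π : ι → κ) (P : ι → ℝ)
    (φ : κ → ℝ) : ∑ k, marg π P k * φ k = ∑ i, P i * φ (π i) := by
  unfold marg
  rw [← Finset.sum_fiberwise_of_maps_to (s := univ) (t := univ) (g := π) (fun i _ => mem_univ _)]
  apply sum_congr rfl
  intro k _
  rw [sum_mul]
  apply sum_congr rfl
  intro i hi
  rw [(mem_filter.1 hi).2]

lemma sum_marg {ι κ : Type*} [Fintype ι] [Fintype κ] [DecidableEq κ] (π : ι → κ) (P : ι → ℝ) :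
    ∑ k, marg π P k = ∑ i, P i := by
  have := sum_marg_mul π P (fun _ => 1)
  simpa using this

lemma marg_ge {ι κ : Type*} [Fintype ι] [DecidableEq κ] (π : ι → κ) (P : ι → ℝ)
    (hP : ∀ i, 0 ≤ P i) (i : ι) : P i ≤ marg π P (π i) := by
  unfold marg
  exact single_le_sum (f := P) (fun j _ => hP j) (mem_filter.2 ⟨mem_univ _, rfl⟩)

lemma ent_marg {ι κ : Type*} [Fintype ι] [Fintype κ] [DecidableEq κ] (π : ι → κ) (P : ι → ℝ) :
    ent (marg π P) = -∑ i, P i * Real.log (marg π P (π i)) := by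
  unfold ent
  rw [← sum_marg_mul π P (fun k => Real.log (marg π P k)), ← sum_neg_distrib]
  apply sum_congr rfl
  intro k _
  rw [Real.negMulLog]; ring

lemma ent_le {ι : Type*} [Fintype ι] [Nonempty ι] (p : ι → ℝ) (hp : ∀ i, 0 ≤ p i)
    (h1 : ∑ i, p i = 1) : ent p ≤ Real.log (Fintype.card ι) := by
  have hN : (0 : ℝ) < Fintype.card ι := by exact_mod_cast Fintype.card_pos
  have key : ∀ i, Real.negMulLog (p i) ≤ p i * Real.log (Fintype.card ι) +
      (1 / (Fintype.card ι) - p i) := by
    intro i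
    rcases eq_or_lt_of_le (hp i) with h0 | h0
    · rw [← h0]; simp
    · have h2 : Real.log (1 / (p i * Fintype.card ι)) ≤ 1 / (p i * Fintype.card ι) - 1 :=
        Real.log_le_sub_one_of_pos (by positivity)
      rw [Real.log_div (by norm_num) (by positivity), Real.log_one,
        Real.log_mul h0.ne' hN.ne'] at h2
      have h3 := mul_le_mul_of_nonneg_left h2 h0.le
      have h4 : p i * (1 / (p i * Fintype.card ι) - 1) = 1 / (Fintype.card ι) - p i := by
        field_simp
      rw [h4] at h3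
      rw [Real.negMulLog]
      linarith
  calc ent p ≤ ∑ i, (p i * Real.log (Fintype.card ι) + (1 / (Fintype.card ι) - p i)) :=
        sum_le_sum fun i _ => key i
    _ = Real.log (Fintype.card ι) := by
        rw [sum_add_distrib, sum_sub_distrib, ← sum_mul, h1, sum_const, card_univ, nsmul_eq_mul]
        field_simp
        ring

/-- the entropy inequality, from a Young type inequality -/
lemma ent_of_young {G : Type*} [AddCommGroup G] [Fintype G] [DecidableEq G] {s : ℝ} (hs : 0 < s)
    (A : Finset (G × G))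
    (hy : ∀ f g k : G → ℝ, (∀ x, 0 ≤ f x) → (∀ x, 0 ≤ g x) → (∀ x, 0 ≤ k x) →
      ∑ p ∈ A, f p.1 * g p.2 * k (p.1 + p.2) ≤
      (∑ x, f x ^ (1 / s)) ^ s * (∑ x, g x ^ (1 / s)) ^ s * (∑ x, k x ^ (1 / s)) ^ s)
    (P : G × G → ℝ) (hP : ∀ p, 0 ≤ P p) (h1 : ∑ p, P p = 1) (hA : ∀ p, p ∉ A → P p = 0) :
    ent P ≤ s * (ent (marg (fun p => p.1) P) + ent (marg (fun p => p.2) P) +
      ent (marg (fun p => p.1 + p.2) P)) := by
  set p1 := marg (fun p : G × G => p.1) P with hp1
  set p2 := marg (fun p : G × G => p.2) P with hp2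
  set p3 := marg (fun p : G × G => p.1 + p.2) P with hp3
  have n1 : ∀ x, 0 ≤ p1 x := marg_nonneg _ P hP
  have n2 : ∀ x, 0 ≤ p2 x := marg_nonneg _ P hP
  have n3 : ∀ x, 0 ≤ p3 x := marg_nonneg _ P hP
  have hQ := hy (fun x => p1 x ^ s) (fun x => p2 x ^ s) (fun x => p3 x ^ s)
    (fun x => Real.rpow_nonneg (n1 x) _) (fun x => Real.rpow_nonneg (n2 x) _)
    (fun x => Real.rpow_nonneg (n3 x) _)
  have e : ∀ q : G → ℝ, (∀ x, 0 ≤ q x) → ∑ x, (q x ^ s) ^ (1 / s) = ∑ x, q x := by
    intro q hq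
    apply sum_congr rfl
    intro x _
    rw [← Real.rpow_mul (hq x), mul_one_div_cancel hs.ne', Real.rpow_one]
  rw [e _ n1, e _ n2, e _ n3, hp1, hp2, hp3, sum_marg, sum_marg, sum_marg, h1] at hQ
  simp only [Real.one_rpow, mul_one] at hQ
  rw [← hp1, ← hp2, ← hp3] at hQ
  have key : ∀ p : G × G, P p * (-Real.log (P p) + s * (Real.log (p1 p.1) + Real.log (p2 p.2) +
      Real.log (p3 (p.1 + p.2)))) ≤
      (if p ∈ A then p1 p.1 ^ s * p2 p.2 ^ s * p3 (p.1 + p.2) ^ s else 0) - P p := by
    intro p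
    rcases eq_or_lt_of_le (hP p) with h0 | h0
    · rw [← h0]
      simp only [zero_mul, sub_zero]
      split_ifs
      · have := n1 p.1; have := n2 p.2; have := n3 (p.1 + p.2)
        positivity
      · exact le_rfl
    · have hpA : p ∈ A := by
        by_contra hn
        exact h0.ne' (hA p hn)
      rw [if_pos hpA]
      have m1 : 0 < p1 p.1 := lt_of_lt_of_le h0 (marg_ge (fun p : G × G => p.1) P hP p)
      have m2 : 0 < p2 p.2 := lt_of_lt_of_le h0 (marg_ge (fun p : G × G => p.2) P hP p)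
      have m3 : 0 < p3 (p.1 + p.2) :=
        lt_of_lt_of_le h0 (marg_ge (fun p : G × G => p.1 + p.2) P hP p)
      set Q := p1 p.1 ^ s * p2 p.2 ^ s * p3 (p.1 + p.2) ^ s with hQdef
      have hQ0 : 0 < Q := by positivity
      have h2 : Real.log (Q / P p) ≤ Q / P p - 1 := Real.log_le_sub_one_of_pos (by positivity)
      have h3 : Real.log (Q / P p) = -Real.log (P p) + s * (Real.log (p1 p.1) +
          Real.log (p2 p.2) + Real.log (p3 (p.1 + p.2))) := by
        rw [Real.log_div hQ0.ne' h0.ne', hQdef, Real.log_mul (by positivity) (by positivity),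
          Real.log_mul (by positivity) (by positivity), Real.log_rpow m1, Real.log_rpow m2,
          Real.log_rpow m3]
        ring
      rw [← h3]
      calc P p * Real.log (Q / P p) ≤ P p * (Q / P p - 1) := mul_le_mul_of_nonneg_left h2 h0.le
        _ = Q - P p := by field_simp
  have hsum := sum_le_sum (s := (univ : Finset (G × G))) fun p _ => key p
  rw [sum_sub_distrib, h1, sum_ite_mem, univ_inter] at hsum
  have hfin : ent P - s * (ent p1 + ent p2 + ent p3) =
      ∑ p : G × G, P p * (-Real.log (P p) + s * (Real.log (p1 p.1) + Real.log (p2 p.2) +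
      Real.log (p3 (p.1 + p.2)))) := by
    rw [hp1, hp2, hp3, ent_marg, ent_marg, ent_marg]
    unfold ent
    simp only [Real.negMulLog]
    simp_rw [mul_add, sum_add_distrib]
    have r : ∀ φ : G × G → ℝ, ∑ p, P p * (s * φ p) = s * ∑ p, P p * φ p := by
      intro φ
      rw [mul_sum]
      exact sum_congr rfl fun p _ => by ring
    rw [r, r, r]
    simp only [mul_neg, neg_mul, sum_neg_distrib]
    ring
  linarith

/-- the uniform distribution -/
lemma card_of_ent {n : ℕ} {s : ℝ} (hs : 0 < s)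
    (A : Finset ((Fin n → ZMod 2) × (Fin n → ZMod 2))) (hne : A.Nonempty)
    (hE : ∀ P : (Fin n → ZMod 2) × (Fin n → ZMod 2) → ℝ, (∀ p, 0 ≤ P p) → ∑ p, P p = 1 →
      (∀ p, p ∉ A → P p = 0) → ent P ≤ s * (ent (marg (fun p => p.1) P) +
        ent (marg (fun p => p.2) P) + ent (marg (fun p => p.1 + p.2) P))) :
    (A.card : ℝ) ≤ (2 : ℝ) ^ (3 * s * n) := by
  have hA0 : (0 : ℝ) < A.card := by exact_mod_cast hne.card_pos
  set P : (Fin n → ZMod 2) × (Fin n → ZMod 2) → ℝ := fun p => if p ∈ A then 1 / (A.card : ℝ) else 0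
    with hP
  have hP0 : ∀ p, 0 ≤ P p := by
    intro p; simp only [hP]; split_ifs <;> positivity
  have hP1 : ∑ p, P p = 1 := by
    simp only [hP]
    rw [sum_ite_mem, univ_inter, sum_const, nsmul_eq_mul]
    field_simp
  have h := hE P hP0 hP1 (fun p hp => by simp only [hP]; rw [if_neg hp])
  have hent : ent P = Real.log A.card := by
    unfold ent
    have : ∀ p, Real.negMulLog (P p) = if p ∈ A then (1 / (A.card : ℝ)) * Real.log A.card else 0 := by
      intro p
      simp only [hP]
      split_ifs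
      · rw [Real.negMulLog, Real.log_div (by norm_num) hA0.ne', Real.log_one]; ring
      · simp
    simp_rw [this]
    rw [sum_ite_mem, univ_inter, sum_const, nsmul_eq_mul]
    field_simp
  have hl : Real.log (Fintype.card (Fin n → ZMod 2)) = n * Real.log 2 := by
    rw [Fintype.card_fun, Fintype.card_fin, ZMod.card]
    push_cast
    rw [Real.log_pow]
  have b1 := ent_le (marg (fun p : (Fin n → ZMod 2) × (Fin n → ZMod 2) => p.1) P)
    (marg_nonneg _ P hP0) (by rw [sum_marg, hP1])
  have b2 := ent_le (marg (fun p : (Fin n → ZMod 2) × (Fin n → ZMod 2) => p.2) P)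
    (marg_nonneg _ P hP0) (by rw [sum_marg, hP1])
  have b3 := ent_le (marg (fun p : (Fin n → ZMod 2) × (Fin n → ZMod 2) => p.1 + p.2) P)
    (marg_nonneg _ P hP0) (by rw [sum_marg, hP1])
  rw [hl] at b1 b2 b3
  rw [hent] at h
  have h2 : Real.log A.card ≤ (3 * s * n) * Real.log 2 := by
    calc Real.log A.card ≤ _ := h
      _ ≤ s * (n * Real.log 2 + n * Real.log 2 + n * Real.log 2) :=
        mul_le_mul_of_nonneg_left (by linarith) hs.le
      _ = _ := by ring
  rw [← Real.log_rpow (by norm_num)] at h2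
  exact (Real.log_le_log_iff hA0 (by positivity)).1 h2

end Pool.Agent.E8helper49.Corner
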