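import Pool.Agent.H523R2.Corner.Compress

/-!
Corner-free sets: the tensor power trick and the relative bound in boxes `X × Y`, `x + y ∈ Z`.
-/

set_option autoImplicit false

namespace Pool.Agent.E8helper49.Corner

open Finset Filter

/-- `A ⊆ G × G` contains no nontrivial corner -/
def CF {G : Type*} [AddCommGroup G] (A : Finset (G × G)) : Prop :=
  ∀ x y z : G, (x, y) ∈ A → (x, y + z) ∈ A → (x + z, y) ∈ A → z = 0

lemma cf_iff {G : Type*} [AddCommGroup G] (A : Finset (G × G)) :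
    CF A ↔ Pool.Agent.H523R2.Corner.CornerFree A := by
  constructor
  · intro h x y z hz h1
    exact hz (h x y z h1.1 h1.2.1 h1.2.2)
  · intro h x y z h1 h2 h3
    by_contra hz
    exact h x y z hz ⟨h1, h2, h3⟩

/-- tensor power trick with polynomial losses -/
lemma tensor_trick {x y C : ℝ} {d : ℕ} (hy : 0 ≤ y)
    (h : ∀ M : ℕ, x ^ M ≤ C * ((M : ℝ) + 1) ^ d * y ^ M) : x ≤ y := by
  by_contra hxy
  push Not at hxy
  have hx : 0 < x := lt_of_le_of_lt hy hxy
  -- `(y / x) ^ M * (M + 1) ^ d → 0`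
  set q : ℝ := y / x with hq
  have hq0 : 0 ≤ q := div_nonneg hy hx.le
  have hq1 : q < 1 := (div_lt_one hx).2 hxy
  have h1 : ∀ M : ℕ, (1 : ℝ) ≤ C * (((M : ℝ) + 1) ^ d * q ^ M) := by
    intro M
    have h2 := h M
    have hxM : 0 < x ^ M := pow_pos hx M
    rw [hq, div_pow]
    have : C * (((M : ℝ) + 1) ^ d * (y ^ M / x ^ M)) = C * ((M : ℝ) + 1) ^ d * y ^ M / x ^ M := by
      ring
    rw [this, le_div_iff₀ hxM, one_mul]
    exact h M
  have h2 : Tendsto (fun M : ℕ => ((M : ℝ)) ^ d * q ^ M) atTop (nhds 0) :=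
    tendsto_pow_const_mul_const_pow_of_lt_one d hq0 hq1
  have h3 : Tendsto (fun M : ℕ => (((M + 1 : ℕ) : ℝ)) ^ d * q ^ (M + 1)) atTop (nhds 0) :=
    h2.comp (tendsto_add_atTop_nat 1)
  rcases eq_or_lt_of_le hq0 with h0 | h0
  · have h4 := h1 1
    rw [← h0] at h4
    simp at h4
    linarith
  · have h4 : Tendsto (fun M : ℕ => C * (((M : ℝ) + 1) ^ d * q ^ M)) atTop (nhds 0) := by
      have h5 := (h3.const_mul (C / q))
      rw [mul_zero] at h5
      refine h5.congr (fun M => ?_)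
      push_cast
      rw [pow_succ]
      field_simp
    exact absurd (ge_of_tendsto' h4 h1) (by norm_num)

/-- the points of `A` in `X × Y` with sum in `Z` -/
def box {G : Type*} [AddCommGroup G] [DecidableEq G] (A : Finset (G × G)) (X Y Z : Finset G) :
    Finset (G × G) :=
  A.filter (fun p => p.1 ∈ X ∧ p.2 ∈ Y ∧ p.1 + p.2 ∈ Z)

section
variable {G : Type*} [AddCommGroup G] [Module (ZMod 2) G]

lemma char2 (x : G) : x + x = 0 := by
  have : ((2 : ℕ) : ZMod 2) • x = 0 := by
    have : ((2 : ℕ) : ZMod 2) = 0 := by decide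
    rw [this, zero_smul]
  rwa [Nat.cast_smul_eq_nsmul, two_nsmul] at this

lemma neg_self (x : G) : -x = x := by
  rw [neg_eq_iff_add_eq_zero]; exact char2 x

variable [DecidableEq G]

lemma hasTF_box (A : Finset (G × G)) (hA : CF A) (X Y Z : Finset G) :
    Pool.Agent.H523R2.Corner.HasTF G (box A X Y Z).card X.card Y.card Z.card := by
  classical
  refine ⟨(box A X Y Z).image (fun p => (p.1, p.2, p.1 + p.2)), ⟨?_, ?_⟩, ?_, ?_, ?_, ?_⟩
  · intro t ht
    obtain ⟨p, _, rfl⟩ := mem_image.1 ht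
    exact char2 _
  · intro a ha b hb c hc h1 h2 h3
    obtain ⟨p, hp, rfl⟩ := mem_image.1 ha
    obtain ⟨q, hq, rfl⟩ := mem_image.1 hb
    obtain ⟨r, hr, rfl⟩ := mem_image.1 hc
    simp only [box, mem_filter] at hp hq hr
    simp only at h1 h2 h3 ⊢
    obtain ⟨x, y⟩ := p
    obtain ⟨x', y'⟩ := q
    obtain ⟨x'', y''⟩ := r
    simp only at h1 h2 h3 hp hq hr ⊢
    subst h1
    subst h2
    -- x + y' = x'' + y
    have e1 : y' = y + (y' + y) := by
      have := char2 y
      calc y' = y' + (y + y) := by rw [this, add_zero]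
        _ = _ := by abel
    have e2 : x'' = x + (y' + y) := by
      have := char2 y
      calc x'' = x'' + y + y := by rw [add_assoc, this, add_zero]
        _ = x + y' + y := by rw [h3]
        _ = _ := by abel
    have := hA x y (y' + y) hp.1 (by rw [← e1]; exact hq.1) (by rw [← e2]; exact hr.1)
    rw [this, add_zero] at e1
    rw [e1]
  · rw [card_image_of_injective]
    rintro ⟨a, b⟩ ⟨a', b'⟩ h
    simp only [Prod.mk.injEq] at h
    simp [h.1, h.2.1]
  · apply card_le_card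
    intro x hx
    rw [image_image, mem_image] at hx
    obtain ⟨p, hp, rfl⟩ := hx
    exact (mem_filter.1 hp).2.1
  · apply card_le_card
    intro x hx
    rw [image_image, mem_image] at hx
    obtain ⟨p, hp, rfl⟩ := hx
    exact (mem_filter.1 hp).2.2.1
  · apply card_le_card
    intro x hx
    rw [image_image, mem_image] at hx
    obtain ⟨p, hp, rfl⟩ := hx
    exact (mem_filter.1 hp).2.2.2

end

/-- the power saving bound with a constant -/
def Bound (c C : ℝ) : Prop :=
  ∀ (n : ℕ) (A : Finset ((Fin n → ZMod 2) × (Fin n → ZMod 2))), CF A →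
    (A.card : ℝ) ≤ C * (4 : ℝ) ^ ((1 - c) * n)

theorem rel {c C : ℝ} (hc : c < 1) (h : Bound c C)
    {G : Type*} [AddCommGroup G] [Module (ZMod 2) G] [Fintype G] [DecidableEq G]
    (A : Finset (G × G)) (hA : CF A) (X Y Z : Finset G) :
    ((box A X Y Z).card : ℝ) ≤ ((X.card : ℝ) * Y.card * Z.card) ^ (2 * (1 - c) / 3) := by
  classical
  have hTF := hasTF_box A hA X Y Z
  set t := (box A X Y Z).card with ht
  set K := X.card * Y.card * Z.card with hK
  have hKc : ((X.card : ℝ) * Y.card * Z.card) = (K : ℝ) := by rw [hK]; push_cast; ring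
  rw [hKc]
  have h3 := hTF.prod (hTF.rot.prod hTF.rot.rot)
  have e1 : X.card * (Y.card * Z.card) = K := by rw [hK]; ring
  have e2 : Y.card * (Z.card * X.card) = K := by rw [hK]; ring
  have e3 : Z.card * (X.card * Y.card) = K := by rw [hK]; ring
  rw [e1, e2, e3] at h3
  clear_value K t
  rcases Nat.eq_zero_or_pos K with h0 | hKpos
  · -- empty box
    have : t = 0 := by
      obtain ⟨T, hT, hTc, ha, hb, hcc⟩ := h3
      rw [h0] at ha
      have h4 : T = ∅ := by
        have : (T.image (fun t => t.1)) = ∅ := card_eq_zero.1 (Nat.le_zero.1 ha)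
        exact image_eq_empty.1 this
      rw [h4, card_empty] at hTc
      have h5 : t * (t * t) = 0 := hTc.symm
      rcases Nat.mul_eq_zero.1 h5 with h | h
      · exact h
      · rcases Nat.mul_eq_zero.1 h with h | h <;> exact h
    rw [this, Nat.cast_zero]
    positivity
  have hC0 : 0 ≤ C := by
    by_contra hneg
    push Not at hneg
    have := h 0 ∅ (by intro x y z h1; simp at h1)
    simp at this
    linarith
  -- powers
  have key : ∀ M : ℕ, ((t : ℝ) ^ 3) ^ M ≤
      (2 * C * (12 : ℝ) ^ (2 * (1 - c))) * ((M : ℝ) + 1) ^ 0 * (((K : ℝ) ^ (2 * (1 - c)))) ^ M := by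
    intro M
    obtain ⟨n, hn1, hn2⟩ : ∃ n : ℕ, 6 * K ^ M ≤ 2 ^ n ∧ 2 ^ n ≤ 12 * K ^ M := by
      refine ⟨Nat.clog 2 (6 * K ^ M), Nat.le_pow_clog (by norm_num) _, ?_⟩
      have h4 : 1 < 6 * K ^ M := by
        have : 0 < K ^ M := pow_pos hKpos M
        omega
      have h5 := Nat.pow_pred_clog_lt_self (b := 2) (by norm_num) h4
      have h6 : 0 < Nat.clog 2 (6 * K ^ M) := Nat.clog_pos (by norm_num) h4
      have h7 : 2 ^ (Nat.clog 2 (6 * K ^ M)) = 2 * 2 ^ (Nat.clog 2 (6 * K ^ M)).pred := by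
        conv_lhs => rw [← Nat.succ_pred_eq_of_pos h6]
        rw [pow_succ]; ring
      omega
    obtain ⟨S, hS, hcard⟩ := (h3.pow M).compress n (by linarith)
    have h4 := h n S ((cf_iff S).2 hS)
    have h5 : ((t : ℝ) ^ 3) ^ M ≤ 2 * S.card := by
      have : (((t * (t * t)) ^ M : ℕ) : ℝ) ≤ ((2 * S.card : ℕ) : ℝ) := by exact_mod_cast hcard
      push_cast at this
      calc ((t : ℝ) ^ 3) ^ M = ((t : ℝ) * (t * t)) ^ M := by ring
        _ ≤ _ := this
    have h6 : (4 : ℝ) ^ ((1 - c) * (n : ℝ)) = ((2 : ℝ) ^ n) ^ (2 * (1 - c)) := by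
      rw [show (4 : ℝ) = (2 : ℝ) ^ (2 : ℝ) by norm_num, ← Real.rpow_mul (by norm_num),
        ← Real.rpow_natCast, ← Real.rpow_mul (by norm_num)]
      congr 1; ring
    have hKM : ((K : ℝ) ^ M) ^ (2 * (1 - c)) = ((K : ℝ) ^ (2 * (1 - c))) ^ M := by
      have hK0 : (0 : ℝ) ≤ K := Nat.cast_nonneg K
      rw [← Real.rpow_natCast (K : ℝ) M, ← Real.rpow_mul hK0, mul_comm (M : ℝ) (2 * (1 - c)),
        Real.rpow_mul hK0, Real.rpow_natCast]
    have h7 : ((2 : ℝ) ^ n) ^ (2 * (1 - c)) ≤ (12 * (K : ℝ) ^ M) ^ (2 * (1 - c)) := by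
      apply Real.rpow_le_rpow (by positivity) _ (by linarith)
      exact_mod_cast hn2
    calc ((t : ℝ) ^ 3) ^ M ≤ 2 * S.card := h5
      _ ≤ 2 * (C * (4 : ℝ) ^ ((1 - c) * (n : ℝ))) := by linarith
      _ ≤ 2 * (C * (12 * (K : ℝ) ^ M) ^ (2 * (1 - c))) := by
          rw [h6]
          have := mul_le_mul_of_nonneg_left h7 hC0
          linarith
      _ = _ := by
          rw [Real.mul_rpow (by norm_num) (by positivity), hKM]
          ring
  have h8 := tensor_trick (by positivity) key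
  have h9 : (t : ℝ) = ((t : ℝ) ^ 3) ^ ((1 : ℝ) / 3) := by
    rw [← Real.rpow_natCast, ← Real.rpow_mul (by positivity)]
    norm_num
  rw [h9]
  calc ((t : ℝ) ^ 3) ^ ((1 : ℝ) / 3) ≤ ((K : ℝ) ^ (2 * (1 - c))) ^ ((1 : ℝ) / 3) :=
        Real.rpow_le_rpow (by positivity) h8 (by norm_num)
    _ = _ := by
        rw [← Real.rpow_mul (by positivity)]
        congr 1; ring

end Pool.Agent.E8helper49.Corner
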