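import Pool.Agent.E8helper49.Corner.Rel

/-!
Corner-free sets: trilinear Young inequality and entropy inequality.
-/

set_option autoImplicit false

namespace Pool.Agent.E8helper49.Corner

open Finset

/-- the power `A^M ⊆ (G^M)^2` -/
def powSet {G : Type*} [DecidableEq G] (A : Finset (G × G)) (M : ℕ) :
    Finset ((Fin M → G) × (Fin M → G)) :=
  (Fintype.piFinset (fun _ : Fin M => A)).map
    (Equiv.arrowProdEquivProdArrow (Fin M) (fun _ => G) (fun _ => G)).toEmbedding

lemma mem_powSet {G : Type*} [DecidableEq G] (A : Finset (G × G)) (M : ℕ)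
    (p : (Fin M → G) × (Fin M → G)) : p ∈ powSet A M ↔ ∀ i, (p.1 i, p.2 i) ∈ A := by
  unfold powSet
  rw [mem_map_equiv, Fintype.mem_piFinset]
  rfl

lemma card_powSet {G : Type*} [DecidableEq G] (A : Finset (G × G)) (M : ℕ) :
    (powSet A M).card = A.card ^ M := by
  unfold powSet
  rw [card_map, Fintype.card_piFinset, prod_const, card_univ, Fintype.card_fin]

lemma sum_powSet {G : Type*} [DecidableEq G] (A : Finset (G × G)) (M : ℕ) (φ : G × G → ℝ) :
    ∑ p ∈ powSet A M, ∏ i, φ (p.1 i, p.2 i) = (∑ p ∈ A, φ p) ^ M := by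
  unfold powSet
  rw [sum_map]
  have h := Finset.prod_univ_sum (fun _ : Fin M => A) (fun _ p => φ p)
  rw [prod_const, card_univ, Fintype.card_fin] at h
  rw [h]
  rfl

lemma cf_powSet {G : Type*} [AddCommGroup G] [DecidableEq G] {A : Finset (G × G)} (hA : CF A)
    (M : ℕ) : CF (powSet A M) := by
  intro x y z h1 h2 h3
  rw [mem_powSet] at h1 h2 h3
  funext i
  exact hA _ _ _ (h1 i) (h2 i) (h3 i)

section
variable {G : Type*} [AddCommGroup G] [Fintype G] [DecidableEq G]

lemma single_level {s : ℝ} (hs : 0 < s) (F : G → ℝ) (hF : ∀ x, 0 ≤ F x) (a : ℝ) (ha : 0 ≤ a) :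
    a * ((univ.filter fun x => F x = a).card : ℝ) ^ s ≤ (∑ x, F x ^ (1 / s)) ^ s := by
  have h1 : a * ((univ.filter fun x => F x = a).card : ℝ) ^ s
      = (a ^ (1 / s) * ((univ.filter fun x => F x = a).card : ℝ)) ^ s := by
    rw [Real.mul_rpow (by positivity) (by positivity), ← Real.rpow_mul ha,
      one_div_mul_cancel hs.ne', Real.rpow_one]
  rw [h1]
  apply Real.rpow_le_rpow (by positivity) _ hs.le
  calc a ^ (1 / s) * ((univ.filter fun x => F x = a).card : ℝ)
      = ∑ x ∈ univ.filter (fun x => F x = a), F x ^ (1 / s) := by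
        rw [sum_congr rfl (fun x hx => by rw [(mem_filter.1 hx).2] : ∀ x ∈ univ.filter
          (fun x => F x = a), F x ^ (1 / s) = a ^ (1 / s)), sum_const, nsmul_eq_mul, mul_comm]
    _ ≤ ∑ x, F x ^ (1 / s) :=
        sum_le_sum_of_subset_of_nonneg (filter_subset _ _)
          (fun x _ _ => Real.rpow_nonneg (hF x) _)

lemma level_bound {s : ℝ} (hs : 0 < s) (A : Finset (G × G))
    (hrel : ∀ X Y Z : Finset G, ((box A X Y Z).card : ℝ) ≤ ((X.card : ℝ) * Y.card * Z.card) ^ s)
    (F K H : G → ℝ) (hF : ∀ x, 0 ≤ F x) (hK : ∀ x, 0 ≤ K x) (hH : ∀ x, 0 ≤ H x) :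
    ∑ p ∈ A, F p.1 * K p.2 * H (p.1 + p.2) ≤
      (((univ.image F).card : ℝ) * (univ.image K).card * (univ.image H).card) *
        ((∑ x, F x ^ (1 / s)) ^ s * (∑ x, K x ^ (1 / s)) ^ s * (∑ x, H x ^ (1 / s)) ^ s) := by
  classical
  set I := (univ.image F) ×ˢ ((univ.image K) ×ˢ (univ.image H)) with hI
  have h1 : ∑ p ∈ A, F p.1 * K p.2 * H (p.1 + p.2) =
      ∑ k ∈ I, ∑ p ∈ A with (F p.1, K p.2, H (p.1 + p.2)) = k,
        F p.1 * K p.2 * H (p.1 + p.2) := by
    rw [sum_fiberwise_of_maps_to]
    intro p _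
    simp [hI]
  rw [h1]
  calc ∑ k ∈ I, ∑ p ∈ A with (F p.1, K p.2, H (p.1 + p.2)) = k, F p.1 * K p.2 * H (p.1 + p.2)
      ≤ ∑ k ∈ I, ((∑ x, F x ^ (1 / s)) ^ s * (∑ x, K x ^ (1 / s)) ^ s *
          (∑ x, H x ^ (1 / s)) ^ s) := by
        apply sum_le_sum
        rintro ⟨a, b, d⟩ hk
        simp only [hI, mem_product, mem_image, mem_univ, true_and] at hk
        have ha : 0 ≤ a := by obtain ⟨⟨x, rfl⟩, _⟩ := hk; exact hF x
        have hb : 0 ≤ b := by obtain ⟨_, ⟨x, rfl⟩, _⟩ := hk; exact hK x
        have hd : 0 ≤ d := by obtain ⟨_, _, ⟨x, rfl⟩⟩ := hk; exact hH x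
        have h2 : ∑ p ∈ A with (F p.1, K p.2, H (p.1 + p.2)) = (a, b, d),
            F p.1 * K p.2 * H (p.1 + p.2) =
            ((box A (univ.filter fun x => F x = a) (univ.filter fun x => K x = b)
              (univ.filter fun x => H x = d)).card : ℝ) * (a * b * d) := by
          have h3 : (A.filter fun p => (F p.1, K p.2, H (p.1 + p.2)) = (a, b, d)) =
              box A (univ.filter fun x => F x = a) (univ.filter fun x => K x = b)
              (univ.filter fun x => H x = d) := by
            ext p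
            simp [box, Prod.mk.injEq]
          rw [← h3, ← nsmul_eq_mul, ← sum_const]
          apply sum_congr rfl
          intro p hp
          have h4 := (mem_filter.1 hp).2
          simp only [Prod.mk.injEq] at h4
          rw [h4.1, h4.2.1, h4.2.2]
        rw [h2]
        have h5 := hrel (univ.filter fun x => F x = a) (univ.filter fun x => K x = b)
              (univ.filter fun x => H x = d)
        calc _ ≤ (((univ.filter fun x => F x = a).card : ℝ) * (univ.filter fun x => K x = b).card *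
                (univ.filter fun x => H x = d).card) ^ s * (a * b * d) :=
              mul_le_mul_of_nonneg_right h5 (by positivity)
          _ = (a * ((univ.filter fun x => F x = a).card : ℝ) ^ s) *
              (b * ((univ.filter fun x => K x = b).card : ℝ) ^ s) *
              (d * ((univ.filter fun x => H x = d).card : ℝ) ^ s) := by
              rw [Real.mul_rpow (by positivity) (by positivity),
                Real.mul_rpow (by positivity) (by positivity)]
              ring
          _ ≤ _ := by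
              have i1 := single_level hs F hF a ha
              have i2 := single_level hs K hK b hb
              have i3 := single_level hs H hH d hd
              have n1 : 0 ≤ a * ((univ.filter fun x => F x = a).card : ℝ) ^ s := by positivity
              have n2 : 0 ≤ b * ((univ.filter fun x => K x = b).card : ℝ) ^ s := by positivity
              have n3 : 0 ≤ d * ((univ.filter fun x => H x = d).card : ℝ) ^ s := by positivity
              exact mul_le_mul (mul_le_mul i1 i2 n2 (n1.trans i1)) i3 n3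
                (mul_nonneg (n1.trans i1) (n2.trans i2))
    _ = _ := by
        rw [sum_const, hI, card_product, card_product, nsmul_eq_mul]
        push_cast
        ring

/-- products of a function over the coordinates take few values -/
lemma card_image_prod (M : ℕ) (f : G → ℝ) :
    ((univ : Finset (Fin M → G)).image (fun x => ∏ i, f (x i))).card ≤
      (M + 1) ^ (Fintype.card G) := by
  classical
  have h : ((univ : Finset (Fin M → G)).image (fun x => ∏ i, f (x i))) ⊆
      (univ : Finset (G → Fin (M + 1))).image (fun k => ∏ v, f v ^ (k v : ℕ)) := by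
    intro a ha
    obtain ⟨x, _, rfl⟩ := mem_image.1 ha
    refine mem_image.2 ⟨fun v => ⟨(univ.filter fun i => x i = v).card, ?_⟩, mem_univ _, ?_⟩
    · have := card_le_univ (univ.filter fun i => x i = v)
      rw [Fintype.card_fin] at this
      omega
    · simp only
      rw [← Finset.prod_fiberwise_of_maps_to (s := univ) (t := univ) (g := x)
        (fun i _ => mem_univ _)]
      apply prod_congr rfl
      intro v _
      rw [← prod_const]
      apply prod_congr rfl
      intro i hi
      rw [(mem_filter.1 hi).2]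
  calc _ ≤ _ := card_le_card h
    _ ≤ (univ : Finset (G → Fin (M + 1))).card := card_image_le
    _ = _ := by rw [card_univ, Fintype.card_fun, Fintype.card_fin]

end

lemma sum_prod_pow {G : Type*} [Fintype G] [DecidableEq G] (M : ℕ) (f : G → ℝ)
    (hf : ∀ x, 0 ≤ f x) (q : ℝ) :
    ∑ x : Fin M → G, (∏ i, f (x i)) ^ q = (∑ x, f x ^ q) ^ M := by
  have h := Finset.prod_univ_sum (fun _ : Fin M => (univ : Finset G)) (fun _ x => f x ^ q)
  rw [prod_const, card_univ, Fintype.card_fin] at h
  rw [h, Fintype.piFinset_univ]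
  apply sum_congr rfl
  intro x _
  rw [Real.finset_prod_rpow _ _ (fun i _ => hf _)]

/-- **Young's inequality on corner-free sets.** -/
theorem young {c C : ℝ} (hc : c < 1) (h : Bound c C)
    {G : Type*} [AddCommGroup G] [Module (ZMod 2) G] [Fintype G] [DecidableEq G]
    (A : Finset (G × G)) (hA : CF A) (f g k : G → ℝ) (hf : ∀ x, 0 ≤ f x) (hg : ∀ x, 0 ≤ g x)
    (hk : ∀ x, 0 ≤ k x) :
    ∑ p ∈ A, f p.1 * g p.2 * k (p.1 + p.2) ≤
      (∑ x, f x ^ (3 / (2 * (1 - c)))) ^ (2 * (1 - c) / 3) *
      (∑ x, g x ^ (3 / (2 * (1 - c)))) ^ (2 * (1 - c) / 3) *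
      (∑ x, k x ^ (3 / (2 * (1 - c)))) ^ (2 * (1 - c) / 3) := by
  have hs : 0 < 2 * (1 - c) / 3 := by linarith
  have hr : 3 / (2 * (1 - c)) = 1 / (2 * (1 - c) / 3) := by rw [one_div_div]
  rw [hr]
  set s := 2 * (1 - c) / 3 with hsdef
  have key : ∀ M : ℕ, (∑ p ∈ A, f p.1 * g p.2 * k (p.1 + p.2)) ^ M ≤
      1 * ((M : ℝ) + 1) ^ (3 * Fintype.card G) * ((∑ x, f x ^ (1 / s)) ^ s *
        (∑ x, g x ^ (1 / s)) ^ s * (∑ x, k x ^ (1 / s)) ^ s) ^ M := by
    intro M
    have h1 := level_bound (G := Fin M → G) hs (powSet A M)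
      (fun X Y Z => rel hc h (powSet A M) (cf_powSet hA M) X Y Z)
      (fun x => ∏ i, f (x i)) (fun x => ∏ i, g (x i)) (fun x => ∏ i, k (x i))
      (fun x => prod_nonneg fun i _ => hf _) (fun x => prod_nonneg fun i _ => hg _)
      (fun x => prod_nonneg fun i _ => hk _)
    have h2 : ∑ p ∈ powSet A M, (∏ i, f (p.1 i)) * (∏ i, g (p.2 i)) * (∏ i, k ((p.1 + p.2) i)) =
        (∑ p ∈ A, f p.1 * g p.2 * k (p.1 + p.2)) ^ M := by
      rw [← sum_powSet A M (fun p => f p.1 * g p.2 * k (p.1 + p.2))]
      apply sum_congr rfl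
      intro p _
      rw [prod_mul_distrib, prod_mul_distrib]
      rfl
    rw [h2, sum_prod_pow M f hf, sum_prod_pow M g hg, sum_prod_pow M k hk] at h1
    have ep : ∀ a : ℝ, 0 ≤ a → (a ^ M) ^ s = (a ^ s) ^ M := by
      intro a ha
      rw [← Real.rpow_natCast a M, ← Real.rpow_mul ha, mul_comm (M : ℝ) s, Real.rpow_mul ha,
        Real.rpow_natCast]
    have n1 : 0 ≤ ∑ x, f x ^ (1 / s) := sum_nonneg fun x _ => Real.rpow_nonneg (hf x) _
    have n2 : 0 ≤ ∑ x, g x ^ (1 / s) := sum_nonneg fun x _ => Real.rpow_nonneg (hg x) _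
    have n3 : 0 ≤ ∑ x, k x ^ (1 / s) := sum_nonneg fun x _ => Real.rpow_nonneg (hk x) _
    rw [ep _ n1, ep _ n2, ep _ n3, ← mul_pow, ← mul_pow] at h1
    refine h1.trans ?_
    apply mul_le_mul_of_nonneg_right _ (by positivity)
    have c1 : ((univ.image fun x : Fin M → G => ∏ i, f (x i)).card : ℝ) ≤
        ((M : ℝ) + 1) ^ (Fintype.card G) := by exact_mod_cast card_image_prod M f
    have c2 : ((univ.image fun x : Fin M → G => ∏ i, g (x i)).card : ℝ) ≤
        ((M : ℝ) + 1) ^ (Fintype.card G) := by exact_mod_cast card_image_prod M g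
    have c3 : ((univ.image fun x : Fin M → G => ∏ i, k (x i)).card : ℝ) ≤
        ((M : ℝ) + 1) ^ (Fintype.card G) := by exact_mod_cast card_image_prod M k
    calc _ ≤ ((M : ℝ) + 1) ^ (Fintype.card G) * ((M : ℝ) + 1) ^ (Fintype.card G) *
          ((M : ℝ) + 1) ^ (Fintype.card G) := by gcongr
      _ = _ := by rw [one_mul, ← pow_add, ← pow_add]; congr 1; ring
  exact tensor_trick (by
    have n1 : 0 ≤ ∑ x, f x ^ (1 / s) := sum_nonneg fun x _ => Real.rpow_nonneg (hf x) _
    have n2 : 0 ≤ ∑ x, g x ^ (1 / s) := sum_nonneg fun x _ => Real.rpow_nonneg (hg x) _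
    have n3 : 0 ≤ ∑ x, k x ^ (1 / s) := sum_nonneg fun x _ => Real.rpow_nonneg (hk x) _
    positivity) key

end Pool.Agent.E8helper49.Corner
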